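import Pool.Agent.helper95.RF.SpecC3

/-! Row rg:GSL of MP_16912e_nt. -/

set_option autoImplicit false

namespace Pool.Agent.RF

open Finset NumberField Pool.Agent.helper3.FT

theorem GSL_sq32 (y : ℝ) (hy : 0 ≤ y) : (y ^ 2) ^ (3 / 2 : ℝ) = y ^ 3 := by
  rw [← Real.rpow_natCast y 2, ← Real.rpow_mul hy, ← Real.rpow_natCast y 3]
  norm_num

theorem GSL_k1 (A v : ℝ) (hA : 1 ≤ A) (hv : 0 < v) :
    (A * v) ^ (3 / 2 : ℝ) * (A * v ^ 2) ^ (5 / 4 : ℝ) ≤ A ^ 3 * v ^ 4 := by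
  have hA0 : 0 < A := by linarith
  have e1 : (v ^ 2) ^ (5 / 4 : ℝ) = v ^ (5 / 2 : ℝ) := by
    rw [← Real.rpow_natCast v 2, ← Real.rpow_mul hv.le]; norm_num
  have e2 : v ^ (3 / 2 : ℝ) * v ^ (5 / 2 : ℝ) = v ^ 4 := by
    rw [← Real.rpow_add hv, ← Real.rpow_natCast v 4]; norm_num
  have e3 : A ^ (3 / 2 : ℝ) * A ^ (5 / 4 : ℝ) ≤ A ^ 3 := by
    rw [← Real.rpow_add hA0, ← Real.rpow_natCast A 3]
    exact Real.rpow_le_rpow_of_exponent_le hA (by norm_num)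
  rw [Real.mul_rpow hA0.le hv.le, Real.mul_rpow hA0.le (by positivity), e1]
  calc A ^ (3 / 2 : ℝ) * v ^ (3 / 2 : ℝ) * (A ^ (5 / 4 : ℝ) * v ^ (5 / 2 : ℝ))
      = (A ^ (3 / 2 : ℝ) * A ^ (5 / 4 : ℝ)) * (v ^ (3 / 2 : ℝ) * v ^ (5 / 2 : ℝ)) := by ring
    _ = (A ^ (3 / 2 : ℝ) * A ^ (5 / 4 : ℝ)) * v ^ 4 := by rw [e2]
    _ ≤ A ^ 3 * v ^ 4 := by gcongr

theorem GSL_k2 (A v : ℝ) (hA : 1 ≤ A) (hv : 0 < v) :
    (A * v) ^ (3 / 2 : ℝ) * (A * v ^ 2) ^ (1 / 4 : ℝ) ≤ A ^ 3 * v ^ 2 := by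
  have hA0 : 0 < A := by linarith
  have e1 : (v ^ 2) ^ (1 / 4 : ℝ) = v ^ (1 / 2 : ℝ) := by
    rw [← Real.rpow_natCast v 2, ← Real.rpow_mul hv.le]; norm_num
  have e2 : v ^ (3 / 2 : ℝ) * v ^ (1 / 2 : ℝ) = v ^ 2 := by
    rw [← Real.rpow_add hv, ← Real.rpow_natCast v 2]; norm_num
  have e3 : A ^ (3 / 2 : ℝ) * A ^ (1 / 4 : ℝ) ≤ A ^ 3 := by
    rw [← Real.rpow_add hA0, ← Real.rpow_natCast A 3]
    exact Real.rpow_le_rpow_of_exponent_le hA (by norm_num)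
  rw [Real.mul_rpow hA0.le hv.le, Real.mul_rpow hA0.le (by positivity), e1]
  calc A ^ (3 / 2 : ℝ) * v ^ (3 / 2 : ℝ) * (A ^ (1 / 4 : ℝ) * v ^ (1 / 2 : ℝ))
      = (A ^ (3 / 2 : ℝ) * A ^ (1 / 4 : ℝ)) * (v ^ (3 / 2 : ℝ) * v ^ (1 / 2 : ℝ)) := by ring
    _ = (A ^ (3 / 2 : ℝ) * A ^ (1 / 4 : ℝ)) * v ^ 2 := by rw [e2]
    _ ≤ A ^ 3 * v ^ 2 := by gcongr

theorem GSL_core (P : ℕ) (hP : 1 ≤ P) (E σ X l : ℝ) (hE : E = 250000 * (P : ℝ)) (hσ : 1 ≤ σ)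
    (hX : 0 < X) (h1 : 600 * E ≤ X ^ 2) (h2 : 9 * σ ^ 2 ≤ X ^ 2) (hl1 : 1 ≤ l) (hl3 : l ≤ 3) :
    ∃ (B T : ℕ) (R : ℝ), 1 ≤ B ∧ 1 ≤ T ∧ E * (2 * B + 1) ≤ (l * σ * X ^ 2) / 100 ∧
      10 * (E * (108 / 100 * X ^ 2) ^ 3) ≤ T * ((l * σ * X ^ 2) ^ 2 / 2) ∧
      E * T * B / (⌊X ^ 2⌋₊ : ℝ) ^ (3 / 2 : ℝ) + (⌊X ^ 2⌋₊ : ℝ) ^ (3 / 2 : ℝ) / B ≤ R ∧
      1 / (100 * 360000 * 52 * 250000 ^ 3) / (P : ℝ) ^ 5 * (σ ^ 4 * X ^ 4) ≤
        X ^ 2 / (10 * (P : ℝ)) ^ 2 * ((B : ℝ) ^ 2 / T) ∧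
      (B : ℝ) / T * (T * (⌊X ^ 2⌋₊ : ℝ) +
        R ^ (3 / 2 : ℝ) * ((T : ℝ) ^ (5 / 4 : ℝ) + (⌊X ^ 2⌋₊ : ℝ) * (T : ℝ) ^ (1 / 4 : ℝ))) ≤
        9 * (1100 * E ^ 2) ^ 3 * (σ * X ^ 4) := by
  have hP' : (1 : ℝ) ≤ P := by exact_mod_cast hP
  have hP0 : (0 : ℝ) < P := by linarith
  have hE1 : 1 ≤ E := by rw [hE]; linarith
  have hE0 : 0 < E := by linarith
  have hσ0 : 0 < σ := by linarith
  have hl0 : 0 < l := by linarith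
  have hX2 : 0 < X ^ 2 := by positivity
  set q : ℕ := ⌊X ^ 2⌋₊ with hq
  have hqle : (q : ℝ) ≤ X ^ 2 := Nat.floor_le hX2.le
  have hqlt : X ^ 2 < q + 1 := Nat.lt_floor_add_one _
  have hqge : (7 / 10 * X) ^ 2 ≤ (q : ℝ) := by nlinarith
  have hq0 : (0 : ℝ) < q := lt_of_lt_of_le (by positivity) hqge
  have hq32le : (q : ℝ) ^ (3 / 2 : ℝ) ≤ X ^ 3 := by
    rw [← GSL_sq32 X hX.le]
    exact Real.rpow_le_rpow hq0.le hqle (by norm_num)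
  have hq32ge : X ^ 3 / 3 ≤ (q : ℝ) ^ (3 / 2 : ℝ) := by
    have := Real.rpow_le_rpow (by positivity) hqge (by norm_num : (0 : ℝ) ≤ 3 / 2)
    rw [GSL_sq32 _ (by positivity)] at this
    refine le_trans ?_ this
    have : 0 < X ^ 3 := by positivity
    nlinarith
  have hq320 : 0 < (q : ℝ) ^ (3 / 2 : ℝ) := Real.rpow_pos_of_pos hq0 _
  -- B
  set x₁ : ℝ := l * σ * X ^ 2 / (300 * E) with hx₁
  have hlσ : 1 ≤ l * σ := by nlinarith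
  have hSq : X ^ 2 ≤ l * σ * X ^ 2 := by nlinarith
  have hx2 : 2 ≤ x₁ := by
    rw [hx₁, le_div_iff₀ (by positivity)]; linarith
  set B : ℕ := ⌊x₁⌋₊ with hB
  have hBle : (B : ℝ) ≤ x₁ := Nat.floor_le (by linarith)
  have hBlt : x₁ < B + 1 := Nat.lt_floor_add_one _
  have hBge : x₁ / 2 ≤ (B : ℝ) := by linarith
  have hB1 : (1 : ℝ) ≤ B := by linarith
  have hB0 : (0 : ℝ) < B := by linarith
  -- bounds of B in terms of sigma X^2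
  have hBup : (B : ℝ) ≤ σ * X ^ 2 := by
    refine hBle.trans ?_
    rw [hx₁, div_le_iff₀ (by positivity)]
    have : l * (σ * X ^ 2) ≤ 3 * (σ * X ^ 2) := by gcongr
    have h3 : 3 * (σ * X ^ 2) ≤ σ * X ^ 2 * (300 * E) := by
      rw [mul_comm]
      have : (3 : ℝ) ≤ 300 * E := by linarith
      gcongr
    have h4 : l * σ * X ^ 2 = l * (σ * X ^ 2) := by ring
    linarith
  have hBlow : σ * X ^ 2 / (600 * E) ≤ (B : ℝ) := by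
    refine le_trans ?_ hBge
    have h3 : x₁ / 2 = l * σ * X ^ 2 / (600 * E) := by rw [hx₁, div_div]; congr 1; ring
    rw [h3]
    have h4 : 1 * (σ * X ^ 2) ≤ l * (σ * X ^ 2) := by gcongr
    have h5 : l * σ * X ^ 2 = l * (σ * X ^ 2) := by ring
    rw [h5]
    have h6 : σ * X ^ 2 ≤ l * (σ * X ^ 2) := by linarith
    exact div_le_div_of_nonneg_right h6 (by positivity)
  -- T
  set y : ℝ := 26 * E * X ^ 2 / (l ^ 2 * σ ^ 2) with hy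
  have hl9 : l ^ 2 ≤ 9 := by nlinarith
  have hl1' : 1 ≤ l ^ 2 := by nlinarith
  have hls : l ^ 2 * σ ^ 2 ≤ X ^ 2 := by
    have : l ^ 2 * σ ^ 2 ≤ 9 * σ ^ 2 := by gcongr
    linarith
  have hy1 : 1 ≤ y := by
    rw [hy, le_div_iff₀ (by positivity)]
    have h3 : 1 * X ^ 2 ≤ 26 * E * X ^ 2 := by
      have : (1 : ℝ) ≤ 26 * E := by linarith
      gcongr
    linarith
  have hy0 : 0 < y := by linarith
  set T : ℕ := ⌈y⌉₊ with hT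
  have hTge : y ≤ (T : ℝ) := Nat.le_ceil _
  have hTlt : (T : ℝ) < y + 1 := Nat.ceil_lt_add_one hy0.le
  have hT2 : (T : ℝ) ≤ 2 * y := by linarith
  have hT1 : (1 : ℝ) ≤ T := by linarith
  have hT0 : (0 : ℝ) < T := by linarith
  set v : ℝ := X / σ with hv
  have hv0 : 0 < v := by positivity
  have hvX : v ≤ X := by rw [hv]; exact div_le_self hX.le hσ
  have hvs : v * σ = X := by rw [hv]; field_simp
  have hTlow : v ^ 2 ≤ (T : ℝ) := by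
    refine le_trans ?_ hTge
    rw [hy, hv, div_pow, div_le_div_iff₀ (by positivity) (by positivity)]
    have h3 : l ^ 2 ≤ 26 * E := by linarith
    have h5 : X ^ 2 * (l ^ 2 * σ ^ 2) = l ^ 2 * (X ^ 2 * σ ^ 2) := by ring
    have h6 : 26 * E * X ^ 2 * σ ^ 2 = 26 * E * (X ^ 2 * σ ^ 2) := by ring
    rw [h5, h6]
    gcongr
  have hTup : (T : ℝ) ≤ 52 * E * v ^ 2 := by
    refine hT2.trans ?_
    rw [hy, hv, div_pow, mul_div_assoc', mul_div_assoc', div_le_div_iff₀ (by positivity) (by positivity)]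
    have h5 : 2 * (26 * E * X ^ 2) * σ ^ 2 = 1 * (52 * E * X ^ 2 * σ ^ 2) := by ring
    have h6 : 52 * E * X ^ 2 * (l ^ 2 * σ ^ 2) = l ^ 2 * (52 * E * X ^ 2 * σ ^ 2) := by ring
    rw [h5, h6]
    gcongr
  set A : ℝ := 1100 * E ^ 2 with hA
  have hE2 : E ≤ E ^ 2 := by nlinarith
  have hA1 : 1 ≤ A := by linarith
  have hA0 : 0 < A := by linarith
  have hTA : (T : ℝ) ≤ A * v ^ 2 := by
    refine hTup.trans ?_
    have : 52 * E ≤ A := by rw [hA]; linarith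
    gcongr
  refine ⟨B, T, E * T * B / (q : ℝ) ^ (3 / 2 : ℝ) + (q : ℝ) ^ (3 / 2 : ℝ) / B,
    by exact_mod_cast hB1, by exact_mod_cast hT1, ?_, ?_, le_refl _, ?_, ?_⟩
  · -- (a)
    have h3 : E * B ≤ l * σ * X ^ 2 / 300 := by
      have : E * B ≤ E * x₁ := by gcongr
      have h5 : E * x₁ = l * σ * X ^ 2 / 300 := by rw [hx₁]; field_simp
      linarith
    linarith
  · -- (b)
    have h3 : 26 * E * X ^ 6 ≤ T * (l * σ * X ^ 2) ^ 2 := by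
      have h5 : y * (l * σ * X ^ 2) ^ 2 = 26 * E * X ^ 6 := by rw [hy]; field_simp
      rw [← h5]; gcongr
    have h4 : 0 < E * X ^ 6 := by positivity
    have h5 : 10 * (E * (108 / 100 * X ^ 2) ^ 3) = 10 * (108 / 100) ^ 3 * (E * X ^ 6) := by ring
    rw [h5]
    linarith
  · -- (e)
    have hz : σ ^ 4 * X ^ 2 / (360000 * 52 * E ^ 3) ≤ (B : ℝ) ^ 2 / T := by
      rw [le_div_iff₀ hT0]
      have h3 : (σ * X ^ 2 / (600 * E)) ^ 2 ≤ (B : ℝ) ^ 2 := by gcongr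
      refine le_trans ?_ h3
      have h4 : σ ^ 4 * X ^ 2 / (360000 * 52 * E ^ 3) * T ≤
          σ ^ 4 * X ^ 2 / (360000 * 52 * E ^ 3) * (52 * E * v ^ 2) := by gcongr
      refine h4.trans (le_of_eq ?_)
      rw [hv]; field_simp; norm_num
    have h3 : X ^ 2 / (10 * (P : ℝ)) ^ 2 * (σ ^ 4 * X ^ 2 / (360000 * 52 * E ^ 3)) ≤
        X ^ 2 / (10 * (P : ℝ)) ^ 2 * ((B : ℝ) ^ 2 / T) := by gcongr
    refine le_trans (le_of_eq ?_) h3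
    rw [hE]; field_simp; norm_num
  · -- (f)
    set R : ℝ := E * T * B / (q : ℝ) ^ (3 / 2 : ℝ) + (q : ℝ) ^ (3 / 2 : ℝ) / B with hR
    have hR0 : 0 ≤ R := by positivity
    have hR1 : E * T * B / (q : ℝ) ^ (3 / 2 : ℝ) ≤ 156 * E ^ 2 * v := by
      rw [div_le_iff₀ hq320]
      have h3 : E * T * B ≤ E * (52 * E * v ^ 2) * (σ * X ^ 2) := by gcongr
      have h4 : 156 * E ^ 2 * v * (X ^ 3 / 3) ≤ 156 * E ^ 2 * v * (q : ℝ) ^ (3 / 2 : ℝ) := by gcongr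
      refine h3.trans (le_trans (le_of_eq ?_) h4)
      have h5 : E * (52 * E * v ^ 2) * (σ * X ^ 2) = 52 * E ^ 2 * v * (v * σ) * X ^ 2 := by ring
      rw [h5, hvs]; ring
    have hR2 : (q : ℝ) ^ (3 / 2 : ℝ) / B ≤ 600 * E * v := by
      rw [div_le_iff₀ hB0]
      refine hq32le.trans ?_
      have h3 : 600 * E * v * (σ * X ^ 2 / (600 * E)) ≤ 600 * E * v * B := by gcongr
      refine le_trans (le_of_eq ?_) h3
      have h5 : 600 * E * v * (σ * X ^ 2 / (600 * E)) = (v * σ) * X ^ 2 := by field_simp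
      rw [h5, hvs]; ring
    have hRA : R ≤ A * v := by
      have : 600 * E * v ≤ 600 * E ^ 2 * v := by gcongr
      have h4 : 0 < E ^ 2 * v := by positivity
      rw [hR, hA]
      have h5 : 1100 * E ^ 2 * v = 1100 * (E ^ 2 * v) := by ring
      linarith
    have hR32 : R ^ (3 / 2 : ℝ) ≤ (A * v) ^ (3 / 2 : ℝ) :=
      Real.rpow_le_rpow hR0 hRA (by norm_num)
    have hT54 : (T : ℝ) ^ (5 / 4 : ℝ) ≤ (A * v ^ 2) ^ (5 / 4 : ℝ) :=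
      Real.rpow_le_rpow hT0.le hTA (by norm_num)
    have hT14 : (T : ℝ) ^ (1 / 4 : ℝ) ≤ (A * v ^ 2) ^ (1 / 4 : ℝ) :=
      Real.rpow_le_rpow hT0.le hTA (by norm_num)
    have hm1 : R ^ (3 / 2 : ℝ) * (T : ℝ) ^ (5 / 4 : ℝ) ≤ A ^ 3 * v ^ 4 :=
      (mul_le_mul hR32 hT54 (by positivity) (by positivity)).trans (GSL_k1 A v hA1 hv0)
    have hm2 : R ^ (3 / 2 : ℝ) * (T : ℝ) ^ (1 / 4 : ℝ) ≤ A ^ 3 * v ^ 2 :=
      (mul_le_mul hR32 hT14 (by positivity) (by positivity)).trans (GSL_k2 A v hA1 hv0)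
    have hvv : v ^ 2 ≤ X ^ 2 := by gcongr
    have hAA : A ≤ A ^ 3 := le_self_pow₀ hA1 (by norm_num)
    have hs1 : (T : ℝ) * q ≤ A ^ 3 * v ^ 2 * X ^ 2 := by
      have h3 : (T : ℝ) * q ≤ (A * v ^ 2) * X ^ 2 := by gcongr
      refine h3.trans ?_
      gcongr
    have hs2 : A ^ 3 * v ^ 4 ≤ A ^ 3 * v ^ 2 * X ^ 2 := by
      have : A ^ 3 * v ^ 4 = A ^ 3 * v ^ 2 * v ^ 2 := by ring
      rw [this]; gcongr
    have hs3 : (q : ℝ) * (A ^ 3 * v ^ 2) ≤ A ^ 3 * v ^ 2 * X ^ 2 := by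
      have : (q : ℝ) * (A ^ 3 * v ^ 2) ≤ X ^ 2 * (A ^ 3 * v ^ 2) := by gcongr
      linarith
    have hsum : (T : ℝ) * q + R ^ (3 / 2 : ℝ) * ((T : ℝ) ^ (5 / 4 : ℝ) + q * (T : ℝ) ^ (1 / 4 : ℝ)) ≤
        3 * (A ^ 3 * v ^ 2 * X ^ 2) := by
      have h3 : R ^ (3 / 2 : ℝ) * ((T : ℝ) ^ (5 / 4 : ℝ) + q * (T : ℝ) ^ (1 / 4 : ℝ)) =
          R ^ (3 / 2 : ℝ) * (T : ℝ) ^ (5 / 4 : ℝ) + q * (R ^ (3 / 2 : ℝ) * (T : ℝ) ^ (1 / 4 : ℝ)) := by ring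
      have h4 : (q : ℝ) * (R ^ (3 / 2 : ℝ) * (T : ℝ) ^ (1 / 4 : ℝ)) ≤ q * (A ^ 3 * v ^ 2) := by gcongr
      rw [h3]; linarith
    have hBT : (B : ℝ) / T ≤ σ * X ^ 2 / v ^ 2 := by
      rw [div_le_div_iff₀ hT0 (by positivity)]
      gcongr
    calc (B : ℝ) / T * (T * (q : ℝ) + R ^ (3 / 2 : ℝ) * ((T : ℝ) ^ (5 / 4 : ℝ) + (q : ℝ) * (T : ℝ) ^ (1 / 4 : ℝ)))
        ≤ σ * X ^ 2 / v ^ 2 * (3 * (A ^ 3 * v ^ 2 * X ^ 2)) :=
          mul_le_mul hBT hsum (by positivity) (by positivity)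
      _ = 3 * A ^ 3 * (σ * X ^ 4) := by field_simp
      _ ≤ 9 * A ^ 3 * (σ * X ^ 4) := by
          have : 0 < A ^ 3 * (σ * X ^ 4) := by positivity
          have h5 : 3 * A ^ 3 * (σ * X ^ 4) = 3 * (A ^ 3 * (σ * X ^ 4)) := by ring
          have h6 : 9 * A ^ 3 * (σ * X ^ 4) = 9 * (A ^ 3 * (σ * X ^ 4)) := by ring
          linarith

theorem GSL : GSL_stmt := by
  refine ⟨1 / (100 * 360000 * 52 * 250000 ^ 3), by norm_num, ?_⟩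
  intro P hP
  have hP' : (1 : ℝ) ≤ P := by exact_mod_cast hP
  set E : ℝ := ((16 * 5 ^ 6 * P : ℕ) : ℝ) with hE
  have hE' : E = 250000 * (P : ℝ) := by rw [hE]; push_cast; norm_num
  have hE1 : 1 ≤ E := by rw [hE']; linarith
  refine ⟨9 * (1100 * E ^ 2) ^ 3, ?_, ?_⟩
  · have h1 : 1 ≤ 1100 * E ^ 2 := by nlinarith
    have h2 : 1 ≤ (1100 * E ^ 2) ^ 3 := one_le_pow₀ h1
    linarith
  intro ρ hρ X₀
  set M : ℝ := X₀ ^ 2 + 1 + 600 * E + 9 * ρ with hM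
  have hM1 : 1 ≤ M := by rw [hM]; nlinarith [sq_nonneg X₀]
  refine ⟨(ρ * M) ^ 2, ?_⟩
  intro N X hN hX hXN
  have hρ0 : 0 < ρ := by linarith
  have hρM : 1 ≤ ρ * M := by nlinarith
  have hN1 : 1 ≤ N := le_trans (one_le_pow₀ hρM) hN
  have hN0 : 0 ≤ N := by linarith
  have hsq : ρ * M ≤ √N := Real.le_sqrt_of_sq_le hN
  have hXM : M ≤ X ^ 2 := by
    rw [hXN, le_div_iff₀ hρ0]; linarith
  set σ : ℝ := ρ ^ (1 / 3 : ℝ) with hσ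
  have hσ1 : 1 ≤ σ := Real.one_le_rpow hρ (by norm_num)
  have hσ0 : 0 < σ := by linarith
  have hσ3 : σ ^ 3 = ρ := by
    rw [hσ, ← Real.rpow_natCast, ← Real.rpow_mul hρ0.le]; norm_num
  have hσ2 : σ ^ 2 ≤ ρ := by rw [← hσ3]; exact pow_le_pow_right₀ hσ1 (by norm_num)
  have hNX : N = σ ^ 6 * X ^ 4 := by
    have h1 : √N = ρ * X ^ 2 := by rw [hXN]; field_simp
    have h2 : N = (√N) ^ 2 := (Real.sq_sqrt hN0).symm
    rw [h2, h1, ← hσ3]; ring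
  set κ : ℝ := (500 : ℝ) ^ (1 / 3 : ℝ) with hκ
  have hκ3 : κ ^ 3 = 500 := by
    rw [hκ, ← Real.rpow_natCast, ← Real.rpow_mul (by norm_num)]; norm_num
  have hκ0 : 0 < κ := Real.rpow_pos_of_pos (by norm_num) _
  have hκ1 : 1 ≤ κ := Real.one_le_rpow (by norm_num) (by norm_num)
  have hκ9 : κ ≤ 9 := by
    by_contra h
    push Not at h
    have : (9 : ℝ) ^ 3 < κ ^ 3 := pow_lt_pow_left₀ h (by norm_num) (by norm_num)
    rw [hκ3] at this; norm_num at this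
  have hS : SZ N X = κ * σ ^ 2 * X ^ 4 := by
    unfold SZ
    have h1 : 500 * N * X ^ 8 = (κ * σ ^ 2 * X ^ 4) ^ 3 := by
      rw [hNX, mul_pow, mul_pow, hκ3]; ring
    rw [h1, ← Real.rpow_natCast, ← Real.rpow_mul (by positivity)]
    norm_num
  set l : ℝ := √κ with hl
  have hl1 : 1 ≤ l := by rw [hl]; exact Real.one_le_sqrt.mpr hκ1
  have hl3 : l ≤ 3 := by
    rw [hl, Real.sqrt_le_left (by norm_num)]; linarith
  have hl2 : l ^ 2 = κ := Real.sq_sqrt hκ0.le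
  have hl0 : 0 < l := by linarith
  have hS2 : SZ N X = (l * σ * X ^ 2) ^ 2 := by rw [hS, ← hl2]; ring
  have hSs : √(SZ N X) = l * σ * X ^ 2 := by
    rw [hS2]; exact Real.sqrt_sq (by positivity)
  have hrr : ρ ^ (-(2 / 3) : ℝ) * N = σ ^ 4 * X ^ 4 := by
    have h1 : ρ ^ (-(2 / 3) : ℝ) = (σ ^ 2)⁻¹ := by
      rw [hσ, ← Real.rpow_natCast, ← Real.rpow_mul hρ0.le, ← Real.rpow_neg hρ0.le]; norm_num
    rw [h1, hNX]; field_simp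
  have hX0n := sq_nonneg X₀
  have hX02 : X₀ ^ 2 ≤ X ^ 2 := by rw [hM] at hXM; linarith
  have h600 : 600 * E ≤ X ^ 2 := by rw [hM] at hXM; linarith
  have h9 : 9 * σ ^ 2 ≤ X ^ 2 := by rw [hM] at hXM; linarith
  refine ⟨hN1, le_trans (le_abs_self _) (abs_le_of_sq_le_sq hX02 hX.le), ?_⟩
  obtain ⟨B, T, R, g1, g2, g3, g4, g5, g6, g7⟩ := GSL_core P hP E σ X l hE' hσ1 hX h600 h9 hl1 hl3
  refine ⟨B, T, R, g1, g2, ?_, ?_, ?_, g5, ?_, ?_⟩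
  · rw [hSs]; exact g3
  · rw [hS2]; exact g4
  · rw [hS]
    have h1 : κ * σ ^ 2 ≤ X ^ 2 := by
      have : κ * σ ^ 2 ≤ 9 * σ ^ 2 := by gcongr
      linarith
    have h2 : (X ^ 2) ^ 3 = X ^ 2 * X ^ 4 := by ring
    rw [h2]; gcongr
  · rw [hrr]
    push_cast
    exact g6
  · rw [hrr]
    refine g7.trans (le_of_eq ?_)
    rw [← hσ3]; field_simp

end Pool.Agent.RF
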