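import Pool.Agent.helper67.RG.Spec

namespace Pool.Agent.RG.DWI

open Matrix Polynomial Pool.Agent.GO Pool.Agent.AR MeasureTheory Kronecker

theorem lin_apply {F m : Type*} [Field F] [Fintype m] [DecidableEq m]
    (l : (m → F) →ₗ[F] F) (M : Matrix m m F) (x : m → F) :
    l (M *ᵥ x) = ∑ k, ∑ k', l (Pi.single k 1) * x k' * M k k' := by
  have h1 : M *ᵥ x = ∑ k, (M *ᵥ x) k • (Pi.single k (1 : F) : m → F) := by
    funext i
    rw [Finset.sum_apply]
    simp [Pi.single_apply]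
  rw [h1, map_sum]
  refine Finset.sum_congr rfl fun k _ => ?_
  rw [map_smul, smul_eq_mul, Matrix.mulVec, dotProduct, Finset.sum_mul]
  refine Finset.sum_congr rfl fun k' _ => ?_
  ring

theorem DWI : DWI_stmt := by
  intro F Γ m κ _ _ _ _ _ _ V ρ D Xm hD A B d W π hF hstab hX X' hX' i j hm h
  obtain ⟨x, hx⟩ := hF.surj (Pi.single j 1)
  obtain ⟨l, hl⟩ := LinearMap.exists_extend ((LinearMap.proj i : (Fin d → F) →ₗ[F] F).comp π)
  have hl' : ∀ z : B, l z.1 = π z i := fun z => by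
    have := LinearMap.congr_fun hl z
    simpa using this
  have hmv : ∀ (M : Matrix (Fin d) (Fin d) F), (M *ᵥ (Pi.single j (1 : F) : Fin d → F)) i = M i j := by
    intro M
    rw [Matrix.mulVec_single_one]
    rfl
  have hW : ∀ g, W g i j = l (V g *ᵥ x.1) := by
    intro g
    have h1 := hF.equiv g x ⟨V g *ᵥ x.1, hstab g x.1 x.2⟩ rfl
    have h2 := hl' ⟨V g *ᵥ x.1, hstab g x.1 x.2⟩
    rw [h1, hx, hmv] at h2
    exact h2.symm
  have hel : (⟨fun g => W g i j, hm⟩ : alg (ds V ρ)) =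
      ∑ k, ∑ k', (l (Pi.single k 1) * x.1 k') • gen (ds V ρ) (Sum.inl k) (Sum.inl k') := by
    apply Subtype.ext
    funext g
    rw [sum_alg_apply]
    show W g i j = _
    rw [hW g, lin_apply]
    refine Finset.sum_congr rfl fun k _ => ?_
    rw [sum_alg_apply]
    refine Finset.sum_congr rfl fun k' _ => ?_
    rfl
  rw [hel, map_sum, sum_alg_apply]
  have h3 : ∀ k, (D (∑ k', (l (Pi.single k 1) * x.1 k') •
      gen (ds V ρ) (Sum.inl k) (Sum.inl k'))).1 h =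
      ∑ k', l (Pi.single k 1) * x.1 k' * (V h * Xm) k k' := by
    intro k
    rw [map_sum, sum_alg_apply]
    refine Finset.sum_congr rfl fun k' _ => ?_
    rw [Derivation.map_smul]
    show (l (Pi.single k 1) * x.1 k') * (D (gen (ds V ρ) (Sum.inl k) (Sum.inl k'))).1 h = _
    rw [hD]
  rw [Finset.sum_congr rfl fun k _ => h3 k, ← lin_apply]
  have hy := hX x.1 x.2
  have h4 := hX' x ⟨Xm *ᵥ x.1, hy⟩ rfl
  have h5 := hF.equiv h ⟨Xm *ᵥ x.1, hy⟩ ⟨V h *ᵥ (Xm *ᵥ x.1), hstab h _ hy⟩ rfl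
  have h6 := hl' ⟨V h *ᵥ (Xm *ᵥ x.1), hstab h _ hy⟩
  rw [h5, h4, hx] at h6
  have h7 : (W h *ᵥ (X' *ᵥ (Pi.single j (1 : F) : Fin d → F))) i = (W h * X') i j := by
    rw [Matrix.mulVec_mulVec, hmv]
  rw [← Matrix.mulVec_mulVec]
  exact h6.trans h7

end Pool.Agent.RG.DWI
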